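import Mathlib
import Pool.Agent.Helper17.WES.Regular

/-! Project SR (MP_cc0731_co): a new record exponent in the sum-product problem over the integers. Definitions. -/

namespace Pool.Agent.Helper21.SR

open Finset
open scoped Pointwise

/-- number of points of `V × V` on the line `v = t u + c`. -/
noncomputable def kap (V : Finset ℝ) (t c : ℝ) : ℕ := #{a ∈ V | t * a + c ∈ V}

/-- sums of points of two different lines of the block `B`; the points of the line of slope `t` are `(x, t x)`,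
`x ∈ Pt t`. -/
noncomputable def Wset (Pt : ℝ → Finset ℝ) (B : Finset ℝ) : Finset (ℝ × ℝ) :=
  ((B ×ˢ B).filter (fun q => q.1 < q.2)).biUnion
    (fun q => (Pt q.1 ×ˢ Pt q.2).image (fun z => (z.1 + z.2, q.1 * z.1 + q.2 * z.2)))

/-- number of representations `z = y s` with `y, s ∈ A`. -/
def fr (A : Finset ℕ) (z : ℕ) : ℕ := #{p ∈ A ×ˢ A | p.1 * p.2 = z}

/-- number of representations `u / v = x / y` with `u, v ∈ A`. -/
def rr (A : Finset ℕ) (x y : ℕ) : ℕ := #{p ∈ A ×ˢ A | p.1 * y = p.2 * x}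

/-- The walk `x -> z = x s -> y`, `s ∈ A` uniform, `y` uniform in `{y ∈ A : z / y ∈ A}`. -/
noncomputable def wk (A : Finset ℕ) (x y : ℕ) : ℝ :=
  (1 / (#A : ℝ)) * ∑ s ∈ A, ∑ t ∈ A, if x * s = y * t then 1 / (fr A (x * s) : ℝ) else 0

open Classical in
/-- The good part of the walk: many representations of `z`, not too many representations of `x / y`. -/
noncomputable def wg (A : Finset ℕ) (f ρ : ℝ) (x y : ℕ) : ℝ :=
  (1 / (#A : ℝ)) * ∑ s ∈ A, ∑ t ∈ A,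
    if x * s = y * t ∧ f ≤ (fr A (x * s) : ℝ) ∧ (rr A x y : ℝ) ≤ ρ then 1 / (fr A (x * s) : ℝ) else 0

open Classical in
/-- energy carried by the popular ratios -/
noncomputable def Eb (A : Finset ℕ) (ρ : ℝ) : ℝ :=
  ∑ x ∈ A, ∑ y ∈ A, if ρ < (rr A x y : ℝ) then (rr A x y : ℝ) else 0

/-- label `m = x y0`, `y0` one step of the walk from `x`. -/
noncomputable def px (w : ℕ → ℕ → ℝ) (A : Finset ℕ) (x m : ℕ) : ℝ :=
  ∑ y ∈ A, if x * y = m then w x y else 0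

/-- `k` independent steps of the walk from `x`. -/
noncomputable def py (w : ℕ → ℕ → ℝ) (k : ℕ) (x : ℕ) (y : Fin k → ℕ) : ℝ := ∏ i, w x (y i)

/-- the label set of `py` -/
def Ly (A : Finset ℕ) (k : ℕ) : Finset (Fin k → ℕ) := Fintype.piFinset (fun _ => A)

/-- `n E |h(x) - h(x~)|`, two conditionally independent points with the same label. -/
noncomputable def E1 {L : Type} (A : Finset ℕ) (S : Finset L) (p : ℕ → L → ℝ) (h : ℕ → ℝ) : ℝ :=
  ∑ l ∈ S, (∑ x ∈ A, ∑ y ∈ A, p x l * p y l * |h x - h y|) / (∑ x ∈ A, p x l)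

/-- `n^2 E |(h(x) - h(x')) - (h(x~) - h(x'~))|` for two conditionally independent pairs with the same labels. -/
noncomputable def E2 {L L' : Type} (A : Finset ℕ) (S : Finset L) (S' : Finset L') (p : ℕ → L → ℝ)
    (q : ℕ → L' → ℝ) (h : ℕ → ℝ) : ℝ :=
  ∑ l ∈ S, ∑ m ∈ S', (∑ x ∈ A, ∑ y ∈ A, ∑ x' ∈ A, ∑ y' ∈ A,
    p x l * p y l * (q x' m * q y' m) * |(h x - h x') - (h y - h y')|) /
      ((∑ x ∈ A, p x l) * (∑ x' ∈ A, q x' m))

/-- `n^2 E |h(x) - h(x')|`, independent uniform points. -/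
noncomputable def E0 (A : Finset ℕ) (h : ℕ → ℝ) : ℝ := ∑ x ∈ A, ∑ y ∈ A, |h x - h y|

/-- `|E e^{iwh}|^2` -/
noncomputable def Pc (A : Finset ℕ) (h : ℕ → ℝ) (w : ℝ) : ℝ :=
  (1 / (#A : ℝ) ^ 2) * ∑ x ∈ A, ∑ y ∈ A, Real.cos (w * (h x - h y))

/-- `E |E[e^{iwh(x)} | z]|^2` for one product label `z = x s` -/
noncomputable def Gc (A : Finset ℕ) (h : ℕ → ℝ) (w : ℝ) : ℝ :=
  (1 / (#A : ℝ)) * ∑ x ∈ A, ∑ y ∈ A, wk A x y * Real.cos (w * (h x - h y))

/-- `E |E[e^{iwh(x)} | label]|^2` -/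
noncomputable def Ac {L : Type} (A : Finset ℕ) (S : Finset L) (p : ℕ → L → ℝ) (h : ℕ → ℝ) (w : ℝ) : ℝ :=
  (1 / (#A : ℝ)) * ∑ l ∈ S, (∑ x ∈ A, ∑ y ∈ A, p x l * p y l * Real.cos (w * (h x - h y))) /
    (∑ x ∈ A, p x l)

/-- `h` is additive on the products of two elements of `A`. -/
def Addv (A : Finset ℕ) (h : ℕ → ℝ) : Prop :=
  ∀ x ∈ A, ∀ s ∈ A, ∀ y ∈ A, ∀ t ∈ A, x * s = y * t → h x + h s = h y + h t

/-- lower bound for `Gc`; `r = |φ(w)|`, `q = P(w/2)^2`. -/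
noncomputable def Psi (r q : ℝ) : ℝ :=
  if q ≤ r then q + 2 * (r - q) ^ 2 / (1 + r ^ 2 - 2 * q) else q

/-- the two-scale certificate -/
noncomputable def Qc (x : ℝ) : ℝ := (1 - x) * (10787 / 10000 + 9861 / 10000 * x - 2497 / 10000 * x ^ 2)

end Pool.Agent.Helper21.SR
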