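import Mathlib
import Pool.Agent.Helper21.SR.Defs

/-! Project SR (MP_cc0731_co), owner helper21. Statements of the modules with complete written proofs.
A module `X` is a file `Pool/Agent/HelperYOU/SR/M_X.lean` (import Mathlib and Pool.Agent.Helper21.SR.St) with one final
theorem `hX : StX` (namespace Pool.Agent.HelperYOU.SR).  All dependencies are hypotheses.  `n = #A`, `N = #(A+A)`, `Π = #(A*A)`. -/

namespace Pool.Agent.Helper21.SR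

open Finset
open scoped Pointwise
open Pool.Agent.Helper17.WES (D lam)

/-- RICH. Lines of positive slope that are rich in a cartesian product.
Proof. `m = #V`. A line is a pair `l = (t, c)`; its points are `(a, t a + c)`, `a ∈ V`, `t a + c ∈ V`; two different points of the plane
lie on at most one such line.  k ≤ 3: map every line to an ordered pair of different points of `V × V` on it: injective, so
`#L ≤ m^4` and `k^3 ≤ 27`.  k ≥ 4: let `r = k / 4` (`r ≥ 1`, `8 r ≥ k`, and `k ≤ kap ≤ m` so `r ≤ m` unless `L = ∅`).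
Let `rk a = #{b ∈ V | b < a} ∈ [0, m)` and `gr a = rk a * r / m ∈ [0, r)`: monotone in `a`, and every class `{a ∈ V | gr a = g}` has at most
`m / r + 1 ≤ 2 m / r` elements (`rk` is injective).  On a line of positive slope `gr a` and `gr (t a + c)` are both monotone in `a`, so two
points of the line with the same value of `gr a + gr (t a + c) ∈ [0, 2r - 2]` have equal `gr a` and equal `gr (t a + c)`.  By Cauchy-Schwarz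
the number of ordered pairs of points of the line (equal points allowed) with equal sum is ≥ kap^2/(2r-1) ≥ 2 kap (kap ≥ k ≥ 4r), so there are at least
`kap ≥ k` ordered pairs of DIFFERENT points in the same cell.  Summing over L: `k #L ≤ #{((a,b),(a',b')) : gr a = gr a', gr b = gr b'} =
(#{(a,a') : gr a = gr a'})^2 ≤ (m * (2 m / r))^2 = 4 m^4 / r^2 ≤ 256 m^4 / k^2`. -/
def StRich : Prop := ∀ (V : Finset ℝ) (L : Finset (ℝ × ℝ)) (k : ℕ), 2 ≤ k →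
  (∀ l ∈ L, 0 < l.1 ∧ k ≤ kap V l.1 l.2) → #L * k ^ 3 ≤ 512 * #V ^ 4

/-- CUBE. Proof (from RICH): split `L` by `j = Nat.log 2 (kap)`, `1 ≤ j ≤ Nat.log 2 #V` because `2 ≤ kap ≤ #V`; for each `j`,
`∑ kap^3 ≤ (2^(j+1))^3 #L_j = 8 (2^j)^3 #L_j ≤ 8 * 512 #V^4`. -/
def StCube : Prop := ∀ (V : Finset ℝ) (L : Finset (ℝ × ℝ)),
  (∀ l ∈ L, 0 < l.1 ∧ 2 ≤ kap V l.1 l.2) →
    ∑ l ∈ L, kap V l.1 l.2 ^ 3 ≤ 4096 * #V ^ 4 * (Nat.log 2 #V + 1)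

/-- EN (energy lemma). Proof (from CUBE). `V = X ∪ S`, `#V ≤ 2m`.  For `y ∈ Y` let `d y = #{a | (a, y) ∈ Γ}`, `∑ d y = #Γ`.
Cauchy-Schwarz over the products: `#Γ^2 = ∑_z ∑_{y y' = z} d y d y'`, so `#Γ^4 ≤ #(Y*Y) * Q`, `Q = ∑_z (∑_{yy'=z} d y d y')^2 =
∑_{y1 y2 = y3 y4} d d d d = ∑_t F(t)^2` where `t` runs over the ratios `y'/y` and `F(t) = ∑_{y, y' ∈ Y, y' = t y} d y d y'`
(y1 y2 = y3 y4 iff y1/y3 = y4/y2).  `F(t) = #{(y, a, b) : (a, y) ∈ Γ, (b, t y) ∈ Γ}`; the map `(y,a,b) ↦ (a, b, u, v)`, `u = a + y ∈ S`,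
`v = b + t y ∈ S`, is injective, `u ≠ a`, and `(a,b)`, `(u,v)` lie on the line of slope `t` and intercept `c = b - t a`, which has at least two
points of `V × V`.  So `F(t) ≤ ∑_c kX kS`, `kX = #{a ∈ X | t a + c ∈ X} ≤ kap V t c`, same for `S`, `c` over the finite set of intercepts
`b - t a` (a, b ∈ X) with `kap V t c ≥ 2`; `∑_c kX ≤ #X^2 ≤ m^2`.  Cauchy-Schwarz:
`F(t)^2 ≤ (∑_c kX)(∑_c kX kS^2) ≤ m^2 ∑_c (kap V t c)^3`.  Sum over t, CUBE for the finite set of all these lines: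
`Q ≤ m^2 * 4096 * 16 m^4 (log2 (2m) + 1)`. -/
def StEn : Prop := ∀ (X S Y : Finset ℝ) (Γ : Finset (ℝ × ℝ)) (m : ℕ), #X ≤ m → #S ≤ m →
  (∀ y ∈ Y, 0 < y) → (∀ p ∈ Γ, p.1 ∈ X ∧ p.2 ∈ Y ∧ p.1 + p.2 ∈ S) →
    #Γ ^ 4 ≤ 65536 * m ^ 6 * (Nat.log 2 m + 2) * #(Y * Y)

/-- BLK (blocks of consecutive slopes). Proof. Sort Λ increasingly, cut it into `q = #Λ / M ≥ 1` blocks `B_i` of exactly `M` consecutive elements
(drop the rest); `#Λ ≤ 2 M q`.  A point `(x + y, s x + t y)` of `Wset Pt B_i` (`s < t` in `B_i`, `x, y > 0`) has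
`s (x+y) < s x + t y < t (x + y)`: its slope is strictly between `min B_i` and `max B_i`, so the sets `Wset Pt B_i` are pairwise disjoint
subsets of `(A + A) × (A + A)`.  Hence some `i` has `q #(Wset Pt B_i) ≤ N^2`, and `#(Wset) #Λ ≤ 2 M q #Wset ≤ 2 M N^2`. -/
def StBlk : Prop := ∀ (A Λ : Finset ℝ) (Pt : ℝ → Finset ℝ) (M : ℕ), (∀ a ∈ A, 0 < a) → (∀ t ∈ Λ, 0 < t) →
  (∀ t ∈ Λ, ∀ x ∈ Pt t, x ∈ A ∧ t * x ∈ A) → 1 ≤ M → M ≤ #Λ →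
    ∃ B ⊆ Λ, #B = M ∧ #(Wset Pt B) * #Λ ≤ 2 * M * #(A + A) ^ 2

/-- PAIR. Proof. For `s < t` in `B` the map `(x, y) ↦ (x + y, s x + t y)` is injective, its image `W_{st}` has `τ^2` elements.
For `p ∈ Wset` let ρ(p) = #{(s,t) : s < t, p ∈ W_{st}}.  The incidences `(p, (s,t))`, `p ∈ W_{st}`, number `M(M-1)/2 τ^2`; those with `ρ(p) = 1`
number at most `#Wset ≤ M^2 τ^2 / 8 ≤ M (M-1) τ^2 / 4`.  So some pair `s < t` has at least `τ^2 / 2` points `p ∈ W_{st}` with `ρ(p) ≥ 2`.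
For each such `p` choose another pair `{s', t'} ≠ {s, t}` with `p ∈ W_{s't'}`; at least one of `s', t'` is not in `{s, t}`: call it `r`, call the other
one `r'` (`r' ≠ r`).  There are at most `M` values of `r ∈ B \ {s, t}`; fix the most frequent one: at least `τ^2 / (2 M)` points `p`, each
corresponding to exactly one `(x, y) ∈ Pt s × Pt t` with `p = (x + y, s x + t y)`; Γ0 is the set of these `(x, y)`. -/
def StPair : Prop := ∀ (B : Finset ℝ) (Pt : ℝ → Finset ℝ) (τ M : ℕ), #B = M → 2 ≤ M → 1 ≤ τ →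
  (∀ t ∈ B, #(Pt t) = τ) → 8 * #(Wset Pt B) ≤ M ^ 2 * τ ^ 2 →
    ∃ s ∈ B, ∃ t ∈ B, ∃ r ∈ B, s < t ∧ r ≠ s ∧ r ≠ t ∧ ∃ Γ0 : Finset (ℝ × ℝ), Γ0 ⊆ Pt s ×ˢ Pt t ∧
      τ ^ 2 ≤ 2 * M * #Γ0 ∧ ∀ p ∈ Γ0, ∃ r' ∈ B, r' ≠ r ∧ ∃ z ∈ Pt r, ∃ x' ∈ Pt r',
        p.1 + p.2 = z + x' ∧ s * p.1 + t * p.2 = r * z + r' * x'

/-- ELIM. Proof (from EN). For `p = (x, y) ∈ Γ0`: subtracting `r` times the first equation from the second gives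
`(s - r) x + (t - r) y = (r' - r) x' =: η(p)`, with all three coefficients non zero, `x' ∈ A`, `η(p) ≠ 0`.  Split Γ0 by the sign of η: one part Γ' has
`2 #Γ' ≥ #Γ0`.  If η > 0 on Γ': apply EN with `X = {-(s-r) x : x ∈ Pt s}`, `S = {(t-r) y : y ∈ Pt t}`, `m = τ`,
`Y = {η(p) : p ∈ Γ'}`, `Γ = {(-(s-r) x, η(p)) : p ∈ Γ'}`: sums are `(t-r) y ∈ S`, and `#Γ = #Γ'` (from the pair one recovers `x` and
then `y`).  If η < 0: `X = {(s-r) x}`, `S = {-(t-r) y}`, `Y = {-η(p)}`.  `Y` is contained in `{± (r'-r) x' : r' ∈ B, x' ∈ A}`, so `Y * Y` is contained in the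
union over `r', r'' ∈ B` of `(r'-r)(r''-r) (A * A)`: `#(Y*Y) ≤ M^2 Π`.  So `#Γ0^4 ≤ 16 #Γ'^4 ≤ 16 * 65536 τ^6 (log2 τ + 2) M^2 Π`. -/
def StElim : Prop := ∀ (A B : Finset ℝ) (Pt : ℝ → Finset ℝ) (τ M : ℕ) (s t r : ℝ) (Γ0 : Finset (ℝ × ℝ)),
  (∀ a ∈ A, 0 < a) → #B = M → (∀ u ∈ B, Pt u ⊆ A ∧ #(Pt u) = τ) → s ∈ B → t ∈ B → r ∈ B → s < t → r ≠ s → r ≠ t →
  Γ0 ⊆ Pt s ×ˢ Pt t →
  (∀ p ∈ Γ0, ∃ r' ∈ B, r' ≠ r ∧ ∃ z ∈ Pt r, ∃ x' ∈ Pt r',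
        p.1 + p.2 = z + x' ∧ s * p.1 + t * p.2 = r * z + r' * x') →
    #Γ0 ^ 4 ≤ 1048576 * τ ^ 6 * (Nat.log 2 τ + 2) * M ^ 2 * #(A * A)

/-- KS (levels). Proof (from EN, BLK, PAIR, ELIM). `n = #A ≥ τ` if Λ is nonempty; `N ≥ n ≥ 1`, `16 N^2 ≤ M #Λ τ^2` forces Λ nonempty.
Case `#Λ < M`: `16 N^2 ≤ M^2 τ^2`, so `4 N ≤ M τ ≤ M n`; EN with `X = Y = A`, `S = A + A`, `Γ = A × A`, `m = N`: `n^8 ≤ 65536 N^6 (log2 N + 2) Π`,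
multiply by `4^6` and use `(4N)^6 ≤ M^6 n^6`: `n^2 ≤ 16 M^6 (log2 N + 2) Π`, and `τ ≤ n`.
Case `M ≤ #Λ`: choose `Pt t ⊆ {x ∈ A | t x ∈ A}` with exactly τ elements (`Finset.exists_subset_card_eq`).  BLK gives `B`, `#B = M`,
`#Wset #Λ ≤ 2 M N^2`; with the hypothesis `8 #Wset #Λ ≤ M * 16 N^2 ≤ M^2 #Λ τ^2`, so `8 #Wset ≤ M^2 τ^2`; PAIR and ELIM:
`τ^8 ≤ 16 M^4 #Γ0^4 ≤ 16 M^4 * 2^20 τ^6 (log2 τ + 2) M^2 Π`; divide by `τ^6`. -/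
def StKS : Prop := ∀ (A Λ : Finset ℝ) (τ M : ℕ), (∀ a ∈ A, 0 < a) →
  (∀ t ∈ Λ, 0 < t ∧ τ ≤ #{x ∈ A | t * x ∈ A}) → A.Nonempty → 1 ≤ τ → 2 ≤ M →
  16 * #(A + A) ^ 2 ≤ M * #Λ * τ ^ 2 →
    τ ^ 2 ≤ 2 ^ 24 * M ^ 6 * (Nat.log 2 #(A + A) + 2) * #(A * A)

/-- EBD (few high levels). Proof (from KS, applied to the image `A'` of `A` in ℝ: `#(A'+A') = N`, `#(A'*A') = Π`).
`rr A x y = #{v ∈ A | x v / y ∈ A}` depends only on the ratio `x / y`; it is between 1 (if x, y ∈ A) and `n`.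
For `0 ≤ j ≤ Nat.log 2 n` let `P_j` be the set of pairs `(x,y) ∈ A^2` with `Nat.log 2 (rr A x y) = j` and `rr A x y > ρ`.  If `P_j` is nonempty then
`2^j > ρ / 2`, so with `τ = 2^j`: `τ^2 > ρ^2 / 4 ≥ 2^24 M^6 (log2 N + 2) Π`, hence by KS (contrapositive) for
`Λ_j = {x/y : (x,y) ∈ A^2, 2^j ≤ rr A x y}` we get `M #Λ_j τ^2 < 16 N^2`.  Every ratio `t = x/y` is the ratio of exactly `rr A x y` pairs of `A^2`, so
`∑_{P_j} rr ≤ #Λ_j (2^(j+1))^2 = 4 #Λ_j τ^2`, and `M ∑_{P_j} rr ≤ 64 N^2`.  Sum over the `log2 n + 1` values of `j`. -/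
def StEbd : Prop := ∀ (A : Finset ℕ) (M : ℕ) (ρ : ℝ), (∀ a ∈ A, 0 < a) → A.Nonempty → 2 ≤ M → 0 ≤ ρ →
  (2 : ℝ) ^ 26 * (M : ℝ) ^ 6 * ((Nat.log 2 #(A + A) : ℝ) + 2) * (#(A * A) : ℝ) ≤ ρ ^ 2 →
    (M : ℝ) * Eb A ρ ≤ 64 * ((Nat.log 2 #A : ℝ) + 1) * (#(A + A) : ℝ) ^ 2

/-- WK1 (the walk). Proof. For fixed `x, s ∈ A` the number of `(y, t) ∈ A^2` with `y t = x s` is `fr A (x s) ≥ 1`; this gives the row sums.
Symmetry: if `x s = y t` then `fr A (x s) = fr A (y t)`; exchange the names of `s`, `t`.  `wg` is a sum over fewer terms. -/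
def StWk1 : Prop := ∀ (A : Finset ℕ) (f ρ : ℝ), (∀ a ∈ A, 0 < a) → A.Nonempty →
  (∀ x y, 0 ≤ wg A f ρ x y ∧ wg A f ρ x y ≤ wk A x y) ∧ (∀ x ∈ A, ∑ y ∈ A, wk A x y = 1) ∧
    (∀ x y, wk A x y = wk A y x)

/-- WK2. Proof. Every term of `wg` is at most `1 / f`, and the number of `(s, t) ∈ A^2` with `x s = y t` is `rr A x y` (exchange the two
coordinates and use commutativity), which is `≤ ρ` if there is a nonzero term. -/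
def StWk2 : Prop := ∀ (A : Finset ℕ) (f ρ : ℝ), A.Nonempty → 0 < f → 0 ≤ ρ →
  ∀ x y, wg A f ρ x y ≤ ρ / ((#A : ℝ) * f)

/-- WK3 (mass of the bad steps). Proof. `n ∑∑ (wk - wg)` is the sum of `1 / fr (x s)` over all `(x,s,y,t) ∈ A^4`, `x s = y t`, with `fr (x s) < f` or
`rr x y > ρ`.  First kind: sum over `(y,t)` first: it is `#{(x,s) : fr (x s) < f} = ∑_{z ∈ A*A, fr z < f} fr z ≤ f Π`.
Second kind and `fr ≥ f`: at most `(1/f) #{(x,s,y,t) : x s = y t, rr x y > ρ} = Eb / f` (for fixed `x, y` there are `rr x y` pairs `(s,t)`). -/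
def StWk3 : Prop := ∀ (A : Finset ℕ) (f ρ : ℝ), (∀ a ∈ A, 0 < a) → A.Nonempty → 0 < f → 0 ≤ ρ →
  ∑ x ∈ A, ∑ y ∈ A, (wk A x y - wg A f ρ x y) ≤
    f * (#(A * A) : ℝ) / (#A : ℝ) + Eb A ρ / ((#A : ℝ) * f)

/-- REG (regularisation). `D` is a metric on positive integers (WES: D_triangle, D_comm, D_self, D_pos, D_label, D_cross, gap).
Proof. Let `r0` be the least number such that some closed ball `C = {y ∈ A : D x0 y ≤ r0}`, `x0 ∈ A`, has `4 #C ≥ n` (finitely many candidates for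
`r0`: the values `D x y`).  Let `A1 = {y ∈ A : D x0 y ≤ 5 r0}`, `F = A \ A1`.  The map `(x, x', s) ↦ (x + x', x s)` is injective on `F × C × C`: if
`x + x' = y + y'`, `x s = y t` and `x = y` then all is equal; if `x ≠ y`, gap gives `D x x' + D y y' ≤ D x y + D x' y' + D (x y') (x' y) ≤ 2 D x y + 2 D x' y'`
(D_cross) `= 2 D s t + 2 D x' y' ≤ 8 r0` (D_label: `D x y = D s t`), but `D x x' ≥ D x x0 - D x0 x' > 4 r0`.  So `#F #C^2 ≤ N Π`, `#F ≤ 16 N Π / n^2 ≤ n / 2`,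
`#A1 ≥ n / 2`.  `M = 10 r0` bounds the distances in A1.  For `x ∈ A1` fewer than `n / 4 ≤ #A1 / 2` points `y ∈ A1` have `D x y < r0` (else a smaller ball would
work, take the largest distance of these points from x), so `∑_{y ∈ A1} D x y ≥ r0 #A1 / 2`, and the total is `≥ r0 #A1^2 / 2 = M #A1^2 / 20`. -/
def StReg : Prop := ∀ (A : Finset ℕ), (∀ a ∈ A, 0 < a) → A.Nonempty →
  32 * (#(A + A) * #(A * A)) ≤ #A ^ 3 →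
    ∃ A1 ⊆ A, #A ≤ 2 * #A1 ∧ ∃ M : ℝ, 0 ≤ M ∧ (∀ a ∈ A1, ∀ b ∈ A1, D a b ≤ M) ∧
      M * (#A1 : ℝ) ^ 2 ≤ 20 * ∑ a ∈ A1, ∑ b ∈ A1, D a b

/-- REF (refinement decreases the energy). Proof. `W = ∑ w`; if `W = 0` all weights vanish and both sides are 0.
For a fibre F with mass `m = ∑_F w > 0` apply `WES.cnd` with the coefficients `c_i = 1_F(i) w_i / m - w_i / W` (sum 0) and `z = h`:
`E(F,F)/m^2 ≤ 2 E(F,Ω)/(m W) - E(Ω,Ω)/W^2`, `E(G,H) = ∑_{i ∈ G, j ∈ H} w_i w_j |h i - h j|`.  Multiply by `m` and sum over the fibres: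
`∑ E(F,F)/m ≤ 2 E(Ω,Ω)/W - E(Ω,Ω)/W`.  Fibres of mass 0 contribute 0. -/
def StRef : Prop := ∀ (ι κ : Type) [DecidableEq ι] [DecidableEq κ] (Ω : Finset ι) (w h : ι → ℝ) (key : ι → κ),
  (∀ i ∈ Ω, 0 ≤ w i) →
    ∑ u ∈ Ω.image key, (∑ i ∈ Ω.filter (fun i => key i = u), ∑ j ∈ Ω.filter (fun i => key i = u),
      w i * w j * |h i - h j|) / (∑ i ∈ Ω.filter (fun i => key i = u), w i) ≤
    (∑ i ∈ Ω, ∑ j ∈ Ω, w i * w j * |h i - h j|) / (∑ i ∈ Ω, w i)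

/-- CNT (counting). Proof (from REF and WES: gap, T_eq / D_eq, sub_primesOf). Let `P(x,x',l,m) = p x l * q x' m`, `Pg = pg x l * qg x' m ≤ P`.  A cell is
`c = (u, l, m)`, its members are the `(x,x') ∈ A^2` with `x + x' = u`, its mass is `P(c) = ∑ P`.  There are at most `N #S1 #S2` cells.
For two members `i = (x,x')`, `j = (y,y')` put `T = D x y + D x' y' + D (x y') (x' y) = ∑_k (|lam k x - lam k y| + |lam k x' - lam k y'| +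
|(lam k x - lam k x') - (lam k y - lam k y')|)` (k over insertNone (primesOf A)).
Upper bound: for fixed `(l, m)`, REF with `Ω = A × A`, weights `P`, key `x + x'`, and the three functions `lam k x`, `lam k x'`, `lam k x - lam k x'`; summing over `l, m`
(using `∑_m ∑_{x'} q x' m = n`, etc.) and k: `∑_c (1/P(c)) ∑_{i,j ∈ c} P_i P_j T ≤ ∑_k (n E1 p + n E1 q + E2) ≤ 2 R ∑_k ∑∑ |lam k x - lam k x'| = 2 R ∑∑ D x x'`.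
Lower bound: for `i ≠ j` in a cell `x ≠ y`, so gap: `D x x' + D y y' ≤ T`.  Hence `∑_c (1/P(c)) ∑_{i,j} P_i P_j T ≥ 2 ∑_c ∑_i P_i D x x' - 2 ∑_c ∑_i P_i^2 D x x' / P(c)`
and `∑_c ∑_i P_i D x x' = ∑∑ D x x'` (row sums 1).  So `(1-R) ∑∑ D ≤ ∑_c ∑_i P_i^2 D / P(c) ≤ M ∑_c ∑_i P_i^2 / P(c)`.  Finally
`P_i^2 / P(c) ≤ Pg_i P_i / P(c) + (P_i - Pg_i)` (as `P_i ≤ P(c)`), `Pg_i ≤ β`, `∑_i P_i / P(c) ≤ 1`: the sum over `c` is at most `N #S1 #S2 β + ∑ (P - Pg)`. -/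
def StCnt : Prop := ∀ (L1 L2 : Type) (A : Finset ℕ) (S1 : Finset L1) (S2 : Finset L2)
  (p pg : ℕ → L1 → ℝ) (q qg : ℕ → L2 → ℝ) (M R β : ℝ),
  (∀ a ∈ A, 0 < a) → A.Nonempty →
  (∀ x ∈ A, ∀ l ∈ S1, 0 ≤ pg x l ∧ pg x l ≤ p x l) → (∀ x ∈ A, ∀ l ∈ S2, 0 ≤ qg x l ∧ qg x l ≤ q x l) →
  (∀ x ∈ A, ∑ l ∈ S1, p x l = 1) → (∀ x ∈ A, ∑ l ∈ S2, q x l = 1) → 0 ≤ β →
  (∀ x ∈ A, ∀ x' ∈ A, ∀ l ∈ S1, ∀ m ∈ S2, pg x l * qg x' m ≤ β) →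
  0 ≤ M → (∀ a ∈ A, ∀ b ∈ A, D a b ≤ M) →
  (∀ k : Option ℕ, (#A : ℝ) * E1 A S1 p (lam k) + (#A : ℝ) * E1 A S2 q (lam k) + E2 A S1 S2 p q (lam k) ≤
      2 * R * E0 A (lam k)) →
    (1 - R) * ∑ a ∈ A, ∑ b ∈ A, D a b ≤ M * ((#(A + A) : ℝ) * (#S1 : ℝ) * (#S2 : ℝ) * β +
      ∑ x ∈ A, ∑ x' ∈ A, ∑ l ∈ S1, ∑ m ∈ S2, (p x l * q x' m - pg x l * qg x' m))

/-- JJ (scaling). Proof. `f(w) = (1 - cos w) / w^2` is nonnegative, `≤ 1/2` near 0 and `≤ 2 / w^2`: integrable on `(0, ∞)`, positive integral `J` (f > 0 almost everywhere, e.g.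
f is continuous and positive on (0, π)).  For `u ≠ 0` substitute `w -> |u| w` (`integral_comp_mul_left_Ioi`): `∫ (1 - cos (u w)) / w^2 = |u| J`; `u = 0` is trivial. -/
def StJJ : Prop := ∃ J : ℝ, 0 < J ∧ ∀ u : ℝ,
  MeasureTheory.IntegrableOn (fun w : ℝ => (1 - Real.cos (w * u)) / w ^ 2) (Set.Ioi 0) ∧
    ∫ w in Set.Ioi (0 : ℝ), (1 - Real.cos (w * u)) / w ^ 2 = J * |u|

/-- FOU (the transport costs as integrals). Proof. All sums are finite, so integrate term by term with the hypothesis.  Write `a_l = ∑_x p x l`.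
(1) `1 - Ac = (1/n) ∑_l (1/a_l) ∑_{x,y} p x l p y l (1 - cos (w (h x - h y)))` because `∑_l (1/a_l) (∑_x p x l)^2 = ∑_l a_l = n` (if `a_l = 0` all `p x l = 0`).
Integral = `(1/n) J E1`.  (2) `1 - Pc = n^-2 ∑∑ (1 - cos)`.  (3) `Ac p * Ac q = n^-2 ∑_{l,m} (1/(a_l b_m)) ∑_{x,y,x',y'} p p q q cos(w δ) cos(w δ')`, `δ = h x - h y`,
`δ' = h x' - h y'`, and `cos (w δ) cos (w δ') = cos (w (δ - δ')) - sin (w δ) sin (w δ')`, where the sine term cancels by the symmetry `x ↔ y`.  So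
`∫ (1 - Ac p Ac q) / w^2 = n^-2 J E2`.  Then `3 - A - B - A B = (1 - A) + (1 - B) + (1 - A B)`. -/
def StFou : Prop := ∀ (J : ℝ) (L1 L2 : Type) (A : Finset ℕ) (S1 : Finset L1) (S2 : Finset L2)
  (p : ℕ → L1 → ℝ) (q : ℕ → L2 → ℝ) (h : ℕ → ℝ), 0 < J →
  (∀ u : ℝ, MeasureTheory.IntegrableOn (fun w : ℝ => (1 - Real.cos (w * u)) / w ^ 2) (Set.Ioi 0) ∧
    ∫ w in Set.Ioi (0 : ℝ), (1 - Real.cos (w * u)) / w ^ 2 = J * |u|) → A.Nonempty →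
  (∀ x ∈ A, ∀ l ∈ S1, 0 ≤ p x l) → (∀ x ∈ A, ∀ l ∈ S2, 0 ≤ q x l) →
  (∀ x ∈ A, ∑ l ∈ S1, p x l = 1) → (∀ x ∈ A, ∑ l ∈ S2, q x l = 1) →
    MeasureTheory.IntegrableOn (fun w : ℝ => (1 - Pc A h w) / w ^ 2) (Set.Ioi 0) ∧
    ∫ w in Set.Ioi (0 : ℝ), (1 - Pc A h w) / w ^ 2 = J * E0 A h / (#A : ℝ) ^ 2 ∧
    MeasureTheory.IntegrableOn (fun w : ℝ => (3 - Ac A S1 p h w - Ac A S2 q h w -
      Ac A S1 p h w * Ac A S2 q h w) / w ^ 2) (Set.Ioi 0) ∧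
    ∫ w in Set.Ioi (0 : ℝ), (3 - Ac A S1 p h w - Ac A S2 q h w - Ac A S1 p h w * Ac A S2 q h w) / w ^ 2 =
      J * ((#A : ℝ) * E1 A S1 p h + (#A : ℝ) * E1 A S2 q h + E2 A S1 S2 p q h) / (#A : ℝ) ^ 2

/-- TEL (telescoping certificate). Proof. `Qc x = (1 - x) * polynomial`, so `|Qc (P w)| ≤ 3 (1 - P w)` and `Qc (P w) / w^2` is integrable (continuous in w > 0).
Substitution `w = 2 v`: `∫ Qc (P (w/2)) / w^2 dw = (1/2) ∫ Qc (P v) / v^2 dv`, so `∫ (2 Qc (P (w/2)) - Qc (P w)) / w^2 = 0`.  Integrate the pointwise inequality. -/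
def StTel : Prop := ∀ (P K : ℝ → ℝ) (R : ℝ), Continuous P → (∀ w, 0 ≤ P w ∧ P w ≤ 1) →
  MeasureTheory.IntegrableOn (fun w : ℝ => (1 - P w) / w ^ 2) (Set.Ioi 0) →
  MeasureTheory.IntegrableOn (fun w : ℝ => K w / w ^ 2) (Set.Ioi 0) →
  (∀ w : ℝ, 0 < w → K w + Qc (P w) - 2 * Qc (P (w / 2)) ≤ 2 * R * (1 - P w)) →
    ∫ w in Set.Ioi (0 : ℝ), K w / w ^ 2 ≤ 2 * R * ∫ w in Set.Ioi (0 : ℝ), (1 - P w) / w ^ 2

/-- TT1 (k steps of the walk as label). Proof. Put `φc = (1/n) ∑ cos (w h x)`, `φs` the same with sin, `Fc x = cos (w h x) - φc`, `Fs` same: sums over `A` are 0.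
For `F ∈ {Fc, Fs}` let `a = ∑ F(x)^2`, `b = ∑∑ wk x y F x F y`, `c = ∑_x (∑_y wk x y F y)^2`.  Summed over the two functions:
`a = n (1 - P)`, `b = n (G - P)` (row sums 1 and symmetry of wk: `∑∑ wk F F = ∑∑ wk cos cos - n φc^2`, and cos cos + sin sin = cos of the difference), and
`n (Ac - P) = ∑_l (∑_x p x l F x)^2 / (∑_x p x l)` (same computation, `p = py`).
Claim 1: `b ≥ 0` and `c ≤ b / 2`.  Let for `z` in A*A: `H z = ∑_{(x,s) ∈ A^2, x s = z} F x / fr z`; then `b = (1/n) ∑_z fr z (H z)^2 ≥ 0`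
and `K x := ∑_y wk x y F y = (1/n) ∑_s H (x s)`.  `n c = n ∑_x K x^2 = ∑_{x,s} K x H(x s) = ∑_{x,s} (1/2)(K x + K s) H (x s)` (symmetry) `≤ ((1/4) ∑_{x,s} (K x + K s)^2)^(1/2)
(∑_{x,s} H(xs)^2)^(1/2) = ((n/2) c)^(1/2) (n b)^(1/2)` (`∑ K = ∑ F = 0`), so `c ≤ b / 2`.
Claim 2: for every real β, `∑_l (∑_x p x l F x)^2/(∑_x p x l) ≥ ∑_l (2 g_l ∑_x p x l F x - g_l^2 ∑_x p x l)` with `g_l = β ∑_i F (y_i)`, which equals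
`2 β k b - β^2 (k a + k (k-1) c) ≥ 2 β k b - β^2 (k a + k (k-1) b/2)`  (given x the y_i are independent with law wk x).  Sum over Fc, Fs:
`Ac - P ≥ 2 β k g - β^2 (k (1-P) + k (k-1) g / 2)`, `g = G - P ≥ 0`; the best β gives `k g^2 / ((1-P) + (k-1) g/2)` (if the denominator is 0 then g = 0 and the
claim is `Ac ≥ P`, true by Claim 2 with β = 0). -/
def StTT1 : Prop := ∀ (A : Finset ℕ) (h : ℕ → ℝ) (k : ℕ) (w : ℝ), (∀ a ∈ A, 0 < a) → A.Nonempty → 1 ≤ k →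
    Pc A h w ≤ Gc A h w ∧
    Pc A h w + k * (Gc A h w - Pc A h w) ^ 2 / ((1 - Pc A h w) + ((k : ℝ) - 1) * (Gc A h w - Pc A h w) / 2) ≤
      Ac A (Ly A k) (py (wk A) k) h w

/-- TT2 (three test functions). Proof. `1 - Gc ≤ n^-2 ∑_{x,s ∈ A} |e^{iwh(x)} - g(x s)|^2` for every complex function g of the product (conditional expectation is the best
predictor: `n Gc = (1/n) ∑_z |∑_{(x,s): xs=z} e^{iwh(x)}|^2 / fr z` and `|S|^2/f ≥ 2 Re(S conj g) - f |g|^2`).  With `H = h x + h s` (a function of the product by Addv),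
θ an argument of `φ(w) = (1/n)∑ e^{iwh}` and real `a, b` take `g = e^{iwH/2} (a + 2 b cos (w H/2 - θ))`.  Then `|e^{iwh(x)} - g|^2 = 1 - 2 cos(w (h x - h s)/2) ρ + ρ^2`,
`ρ = a + 2 b cos ψ`, `ψ = w H/2 - θ`.  Sums over (x,s), divided by n^2: `cos (w (h x - h s)/2)` gives `p = Pc (w/2)`;
`2 cos(w(h x - h s)/2) cos ψ = cos (w h x - θ) + cos (w h s - θ)` gives `2 r`, `r = |φ(w)| = sqrt (Pc w)`; `cos ψ` gives at most `p` in absolute value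
(`∑ cos ψ = Re(e^{-iθ} (∑ e^{iwh/2})^2)`); `2 cos^2 ψ = 1 + cos 2ψ` gives `1 + P`, `P = Pc w = r^2`.  Total
`1 - 2 a p - 4 b r + a^2 + 4 a b (avg cos ψ) + 2 b^2 (1 + P)` with `4 a b (avg cos ψ) ≤ 4 a b p` as `a b ≥ 0`. -/
def StTT2 : Prop := ∀ (A : Finset ℕ) (h : ℕ → ℝ) (w a b : ℝ), (∀ x ∈ A, 0 < x) → A.Nonempty → Addv A h → 0 ≤ a * b →
    2 * a * Pc A h (w / 2) + 4 * b * Real.sqrt (Pc A h w) - a ^ 2 - 2 * b ^ 2 * (1 + Pc A h w) -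
      4 * a * b * Pc A h (w / 2) ≤ Gc A h w

/-- TT3. Proof. `n^2 Pc w = (∑ cos (w h x))^2 + (∑ sin (w h x))^2 ≤ n^2`, `≥ 0`, continuous.  `cos (2 θ) = 2 cos^2 θ - 1`, `θ = w (h x - h y)/2`, and Jensen (Cauchy-Schwarz):
`n^-2 ∑∑ cos^2 θ ≥ (n^-2 ∑∑ cos θ)^2 = Pc (w/2)^2`.  For Ac: `(∑_x p x l cos)^2 + (∑_x p x l sin)^2 ≤ (∑_x p x l)^2`, so `0 ≤ Ac ≤ 1` (Cauchy-Schwarz), similarly Gc ≤ 1. -/
def StTT3 : Prop := ∀ (A : Finset ℕ) (h : ℕ → ℝ), A.Nonempty →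
  (Continuous (Pc A h)) ∧ (∀ w, 0 ≤ Pc A h w ∧ Pc A h w ≤ 1 ∧ 2 * Pc A h (w / 2) ^ 2 - 1 ≤ Pc A h w) ∧
  ∀ (L : Type) (S : Finset L) (p : ℕ → L → ℝ), (∀ x ∈ A, ∀ l ∈ S, 0 ≤ p x l) → (∀ x ∈ A, ∑ l ∈ S, p x l = 1) →
    ∀ w, 0 ≤ Ac A S p h w ∧ Ac A S p h w ≤ 1

/-- TTX (the label m = x y0). Proof. For every real `a` (`|S|^2/f ≥ 2 Re (S conj g) - f |g|^2` again) with `g_m = a e^{iw(h x + h y)/2}`, `m = x y` (well defined by Addv):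
`n (1 - Ac) ≤ ∑_x ∑_y wk x y |e^{iwh(x)} - a e^{iw(h x + h y)/2}|^2 = ∑∑ wk (1 - 2 a cos (w (h x - h y)/2) + a^2) = n (1 - 2 a Gc(w/2) + a^2)`; take `a = Gc (w/2)`.
Row sums: `∑_{m ∈ A*A} px x m = ∑_y wk x y`. -/
def StTTX : Prop := ∀ (A : Finset ℕ) (h : ℕ → ℝ) (w : ℝ), (∀ x ∈ A, 0 < x) → A.Nonempty → Addv A h →
    Gc A h (w / 2) ^ 2 ≤ Ac A (A * A) (px (wk A) A) h w

/-- NUM (the explicit two variable inequality; the maximal ratio of the left side, with 2(1-P) moved, is 0.978 against 0.999).  -/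
def StNum : Prop := ∀ (p r : ℝ), 0 ≤ p → p ≤ 1 → 0 ≤ r → r ≤ 1 → 2 * p ^ 2 - 1 ≤ r ^ 2 →
  let g := Psi r (p ^ 2) - r ^ 2
  let a := (2 * p / (1 + p)) ^ 2
  let b := r ^ 2 + 8 * g ^ 2 / ((1 - r ^ 2) + 7 * g / 2)
  0 ≤ g ∧ 3 - a - b - a * b + Qc (r ^ 2) - 2 * Qc p ≤ 2 * (999 / 1000) * (1 - r ^ 2)

/-- UNI (universal inequality). Proof (from JJ, FOU, TEL, TT1, TT2, TT3, TTX, NUM). Fix w > 0, `P = Pc w`, `p = Pc (w/2)`, `r = sqrt P`, `q = p^2`.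
TT2 with `b = 0`, `a = p`: `Gc w ≥ p^2 = q`.  If `r ≥ q` and `Δ = 1 + P - 2q > 0`: `b = (r-q)/Δ ≥ 0`, `a = p (1 - 2 b) ≥ 0` (since `2(r-q) ≤ Δ` iff `(1-r)^2 ≥ 0`): TT2 gives
`Gc w ≥ q + 2 (r-q)^2/Δ`.  (Δ = (1-r)^2 + 2(r-q); Δ = 0 forces r = q = 1 and the term is 0.)  So `Gc w ≥ Psi r q`.  TT2 at `w/2` with `a = 0`, `b = sqrt p/(1+p)`:
`Gc (w/2) ≥ 2 p/(1+p)`, and TTX: `A := Ac (px) ≥ (2p/(1+p))^2`.  TT1 with k = 8 and monotonicity of `g ↦ 8 g^2/((1-P) + 7g/2)` on g ≥ 0: `B := Ac (py 8) ≥ b` of NUM.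
`3 - A - B - AB` is decreasing in A, B ∈ [0,1] (TT3), so NUM gives `K w + Qc (P w) - 2 Qc (P (w/2)) ≤ 2 (999/1000) (1 - P w)`, `K = 3 - A - B - AB`.
TEL and FOU (divide by `J / n^2 > 0`). -/
def StUni : Prop := ∀ (A : Finset ℕ) (h : ℕ → ℝ), (∀ x ∈ A, 0 < x) → A.Nonempty → Addv A h →
  (#A : ℝ) * E1 A (A * A) (px (wk A) A) h + (#A : ℝ) * E1 A (Ly A 8) (py (wk A) 8) h +
    E2 A (A * A) (Ly A 8) (px (wk A) A) (py (wk A) 8) h ≤ 2 * (999 / 1000) * E0 A h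

/-- MAIN. Proof (from CNT, UNI, WK1, WK2, WK3). `lam k` is additive (WES.lam_mul), so UNI applies to `h = lam k`.  CNT with `S1 = A*A`, `S2 = Ly A 8`, `p = px wk`, `pg = px wg`,
`q = py wk 8`, `qg = py wg 8`, `R = 999/1000`, `β = (ρ/(n f))^9`: `px wg x m` is a single value `wg x y` (or 0) because `x y = m` determines y, so WK2 gives β.  `#S2 = n^8`.
Bad part: `∑_{x,x'} (1 - a_x b_{x'})`, `a_x = ∑_y wg x y ≤ 1`, `b_{x'} = a_{x'}^8`; `1 - a b ≤ (1-a) + (1-b)`, `1 - a^8 ≤ 8 (1 - a)`: at most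
`9 n ∑_x (1 - a_x) = 9 n ∑∑ (wk - wg)`, WK3.  Finally `M n^2 ≤ 20 ∑∑ D` and `∑∑ D > 0` (n ≥ 2, WES.D_pos): divide. -/
def StMain : Prop := ∀ (A : Finset ℕ) (M f ρ : ℝ), (∀ a ∈ A, 0 < a) → 2 ≤ #A → 0 ≤ M →
  (∀ a ∈ A, ∀ b ∈ A, D a b ≤ M) → M * (#A : ℝ) ^ 2 ≤ 20 * ∑ a ∈ A, ∑ b ∈ A, D a b → 0 < f → 0 ≤ ρ →
    (#A : ℝ) ^ 2 / 20000 ≤ (#(A + A) : ℝ) * (#(A * A) : ℝ) * (#A : ℝ) ^ 8 * (ρ / ((#A : ℝ) * f)) ^ 9 +
      9 * (#A : ℝ) * (f * (#(A * A) : ℝ) / (#A : ℝ) + Eb A ρ / ((#A : ℝ) * f))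

/-- ASY (asymptotics). Proof. θ = 4/3 + 1/290.  Suppose `N ≤ 3 n^θ`, `Π ≤ 3 n^θ`, n large.  Put η = 10^-7, `f = η n^2/Π`, `X = 64 (log2 n + 1) N^2 Π/(η^2 n^4)`, `M = ⌈X⌉ + 2`,
`ρ = (2^26 M^6 (log2 N + 2) Π)^(1/2)`.  The hypothesis gives `M Eb ≤ 64 (log2 n + 1) N^2`, so `Eb ≤ η^2 n^4/Π` and the last term of the conclusion of MAIN is
`≤ 9 n (η n + η n) = 18 η n^2 < n^2/40000`.  So `1/40000 ≤ N Π n^-3 (ρ/f)^9`.  But `X ≤ C n^(3θ-4) log n`, `M ≤ C n^(3θ-4) log n` (3θ - 4 = 3/290 > 0),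
`(ρ/f)^2 ≤ C M^6 log n Π^3 n^-4 ≤ C n^(6(3θ-4) + 3θ - 4) (log n)^7 = C n^(21 θ - 28) (log n)^7`, hence the right side is `≤ C n^(2θ - 3 + 9 (21θ-28)/2) (log n)^32
= C n^((193 θ - 258)/2) (log n)^32`; at θ = 4/3 + 1/290 the exponent is `(193/290 - 2/3)/2 = -1/1740 < 0`: contradiction for large n. -/
def StAsy : Prop := ∃ n0 : ℕ, ∀ (n N Q : ℕ) (E : ℝ → ℝ), n0 ≤ n → n ≤ N → n ≤ Q →
  (N : ℝ) ≤ 3 * (n : ℝ) ^ ((4 : ℝ) / 3 + 1 / 290) → (Q : ℝ) ≤ 3 * (n : ℝ) ^ ((4 : ℝ) / 3 + 1 / 290) →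
  (∀ (M : ℕ) (ρ : ℝ), 2 ≤ M → 0 ≤ ρ →
    (2 : ℝ) ^ 26 * (M : ℝ) ^ 6 * ((Nat.log 2 N : ℝ) + 2) * (Q : ℝ) ≤ ρ ^ 2 →
      (M : ℝ) * E ρ ≤ 64 * ((Nat.log 2 n : ℝ) + 1) * (N : ℝ) ^ 2) →
  (∀ f ρ : ℝ, 0 < f → 0 ≤ ρ → (n : ℝ) ^ 2 / 20000 ≤ (N : ℝ) * (Q : ℝ) * (n : ℝ) ^ 8 * (ρ / ((n : ℝ) * f)) ^ 9 +
      9 * (n : ℝ) * (f * (Q : ℝ) / (n : ℝ) + E ρ / ((n : ℝ) * f))) → False

/-- FIN. Proof (from EBD, REG, MAIN, ASY). Let `A` be a finite set of positive integers, `n = #A`.  If `32 N Π > n^3` then `max ≥ n^(3/2)/6 ≥ c n^θ`.  Otherwise REG gives `A1`,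
`#A1 ≥ n/2`, with the diameter bound; `#(A1+A1) ≤ N`, `#(A1*A1) ≤ Π`.  If `#A1 ≥ n0` and both `N, Π ≤ n^θ ≤ 3 #A1^θ` (2^θ < 3) then ASY with `E = Eb A1` contradicts EBD and MAIN.  So for
`n ≥ 2 n0` the maximum is `≥ c n^θ`; for smaller `n` it is ≥ 1 (A nonempty).  For a finite set of integers take its positive part or minus its negative part: at least `(n-1)/2` elements;
for `n ≤ 2` use max ≥ 1.  (Sums and products of the part embed in those of A.) -/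
def StFin : Prop := ∃ c : ℝ, 0 < c ∧ ∀ A : Finset ℤ,
  c * (#A : ℝ) ^ ((4 : ℝ) / 3 + 1 / 290) ≤ max (#(A + A) : ℝ) (#(A * A) : ℝ)

end Pool.Agent.Helper21.SR
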