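import Mathlib
import Pool.Agent.Helper21.SR.St

namespace Pool.Agent.Helper21.SR

open Finset
open scoped Pointwise

/-- the real copy of `A` -/
noncomputable def RA (A : Finset ℕ) : Finset ℝ := A.image (fun n : ℕ => (n : ℝ))

theorem card_RA (A : Finset ℕ) : #(RA A) = #A :=
  Finset.card_image_of_injective _ Nat.cast_injective

theorem RA_add (A : Finset ℕ) : RA A + RA A = RA (A + A) := by
  ext z
  simp only [RA, Finset.mem_add, Finset.mem_image]
  constructor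
  · rintro ⟨_, ⟨a, ha, rfl⟩, _, ⟨b, hb, rfl⟩, rfl⟩
    exact ⟨a + b, ⟨a, ha, b, hb, rfl⟩, by push_cast; rfl⟩
  · rintro ⟨_, ⟨a, ha, b, hb, rfl⟩, rfl⟩
    exact ⟨a, ⟨a, ha, rfl⟩, b, ⟨b, hb, rfl⟩, by push_cast; rfl⟩

theorem RA_mul (A : Finset ℕ) : RA A * RA A = RA (A * A) := by
  ext z
  simp only [RA, Finset.mem_mul, Finset.mem_image]
  constructor
  · rintro ⟨_, ⟨a, ha, rfl⟩, _, ⟨b, hb, rfl⟩, rfl⟩
    exact ⟨a * b, ⟨a, ha, b, hb, rfl⟩, by push_cast; rfl⟩
  · rintro ⟨_, ⟨a, ha, b, hb, rfl⟩, rfl⟩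
    exact ⟨a, ⟨a, ha, rfl⟩, b, ⟨b, hb, rfl⟩, by push_cast; rfl⟩

/-- `rr A x y` is the number of `v` in the real copy with `(x/y) v` in it. -/
theorem rr_eq (A : Finset ℕ) (x y : ℕ) (hy : 0 < y) :
    rr A x y = #{v ∈ RA A | ((x : ℝ) / y) * v ∈ RA A} := by
  unfold rr
  have hy' : (0 : ℝ) < y := by exact_mod_cast hy
  refine Finset.card_bij' (fun p _ => (p.2 : ℝ)) (fun v _ => (⌊((x : ℝ) / y) * v⌋₊, ⌊v⌋₊)) ?_ ?_ ?_ ?_
  · rintro ⟨u, v⟩ h
    simp only [Finset.mem_filter, Finset.mem_product] at h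
    simp only [Finset.mem_filter, RA, Finset.mem_image]
    refine ⟨⟨v, h.1.2, rfl⟩, u, h.1.1, ?_⟩
    have : (u : ℝ) * y = v * x := by exact_mod_cast h.2
    field_simp
    linarith
  · intro v h
    simp only [Finset.mem_filter, RA, Finset.mem_image] at h
    obtain ⟨⟨b, hb, rfl⟩, a, ha, hab⟩ := h
    simp only [Finset.mem_filter, Finset.mem_product]
    rw [← hab]
    simp only [Nat.floor_natCast]
    refine ⟨⟨ha, hb⟩, ?_⟩
    have : (a : ℝ) * y = b * x := by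
      rw [hab]; field_simp
    exact_mod_cast this
  · rintro ⟨u, v⟩ h
    simp only [Finset.mem_filter, Finset.mem_product] at h
    have : (u : ℝ) * y = v * x := by exact_mod_cast h.2
    have e : ((x : ℝ) / y) * v = u := by
      field_simp
      linarith
    simp only [e, Nat.floor_natCast]
  · intro v h
    simp only [Finset.mem_filter, RA, Finset.mem_image] at h
    obtain ⟨⟨b, hb, rfl⟩, a, ha, hab⟩ := h
    simp only [Nat.floor_natCast]

theorem rr_le_card (A : Finset ℕ) (x y : ℕ) (hy : 0 < y) : rr A x y ≤ #A := by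
  rw [rr_eq A x y hy]
  exact (Finset.card_filter_le _ _).trans (card_RA A).le

theorem rr_pos (A : Finset ℕ) (x y : ℕ) (hx : x ∈ A) (hy : y ∈ A) : 0 < rr A x y := by
  unfold rr
  refine Finset.card_pos.2 ⟨(x, y), ?_⟩
  simp [hx, hy, mul_comm]

/-- number of pairs with the same ratio -/
theorem rr_fiber (A : Finset ℕ) (hpos : ∀ a ∈ A, 0 < a) (x y : ℕ) (hy : 0 < y) :
    #{p ∈ A ×ˢ A | ((p.1 : ℝ) / p.2) = (x : ℝ) / y} ≤ rr A x y := by
  unfold rr
  refine Finset.card_le_card ?_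
  rintro ⟨u, v⟩ h
  simp only [Finset.mem_filter, Finset.mem_product] at h ⊢
  refine ⟨h.1, ?_⟩
  have hv : (0 : ℝ) < v := by exact_mod_cast hpos v h.1.2
  have hy' : (0 : ℝ) < y := by exact_mod_cast hy
  have := h.2
  rw [div_eq_div_iff hv.ne' hy'.ne'] at this
  have h3 : (u : ℝ) * y = v * x := by linarith
  exact_mod_cast h3

theorem hEbd (hKS : StKS) : StEbd := by
  classical
  intro A M ρ hpos hA hM hρ hρ2
  have hM0 : (0 : ℝ) < M := by exact_mod_cast (by omega : 0 < M)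
  -- the dyadic pieces
  set P : ℕ → Finset (ℕ × ℕ) := fun j =>
    (A ×ˢ A).filter (fun p => Nat.log 2 (rr A p.1 p.2) = j ∧ ρ < (rr A p.1 p.2 : ℝ)) with hP
  have hpiece : ∀ j, (M : ℝ) * ∑ p ∈ P j, (rr A p.1 p.2 : ℝ) ≤ 64 * (#(A + A) : ℝ) ^ 2 := by
    intro j
    rcases (P j).eq_empty_or_nonempty with he | ⟨p0, hp0⟩
    · rw [he]; simp
    -- set of ratios
    set Λ : Finset ℝ := (P j).image (fun p => (p.1 : ℝ) / p.2) with hΛ
    have hmemP : ∀ p ∈ P j, p.1 ∈ A ∧ p.2 ∈ A ∧ 2 ^ j ≤ rr A p.1 p.2 ∧ rr A p.1 p.2 < 2 ^ (j + 1) ∧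
        ρ < (rr A p.1 p.2 : ℝ) := by
      intro p hp
      simp only [hP, Finset.mem_filter, Finset.mem_product] at hp
      obtain ⟨⟨h1, h2⟩, h3, h4⟩ := hp
      have hr := rr_pos A p.1 p.2 h1 h2
      refine ⟨h1, h2, ?_, ?_, h4⟩
      · rw [← h3]; exact Nat.pow_log_le_self 2 hr.ne'
      · rw [← h3]; exact Nat.lt_pow_succ_log_self (by norm_num) _
    have hpow : ρ < 2 * (2 : ℝ) ^ j := by
      obtain ⟨_, _, _, h4, h5⟩ := hmemP p0 hp0
      have : ((rr A p0.1 p0.2 : ℕ) : ℝ) < 2 ^ (j + 1) := by exact_mod_cast h4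
      rw [pow_succ] at this
      linarith
    have hsmall : M * #Λ * (2 ^ j) ^ 2 < 16 * #(A + A) ^ 2 := by
      by_contra hcon
      push Not at hcon
      have hRA : (RA A).Nonempty := by
        rw [← Finset.card_pos, card_RA]; exact hA.card_pos
      have key := hKS (RA A) Λ (2 ^ j) M (by
          intro a ha
          simp only [RA, Finset.mem_image] at ha
          obtain ⟨b, hb, rfl⟩ := ha
          exact_mod_cast hpos b hb) (by
          intro t ht
          rw [hΛ, Finset.mem_image] at ht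
          obtain ⟨p, hp, rfl⟩ := ht
          obtain ⟨h1, h2, h3, _, _⟩ := hmemP p hp
          have hp1 : (0 : ℝ) < p.1 := by exact_mod_cast hpos _ h1
          have hp2 : (0 : ℝ) < p.2 := by exact_mod_cast hpos _ h2
          refine ⟨by positivity, ?_⟩
          rw [← rr_eq A p.1 p.2 (hpos _ h2)]
          exact h3) hRA Nat.one_le_two_pow hM (by
          rw [RA_add, card_RA]
          exact hcon)
      rw [RA_add, RA_mul, card_RA, card_RA] at key
      have key' : ((2 : ℝ) ^ j) ^ 2 ≤ 2 ^ 24 * (M : ℝ) ^ 6 * ((Nat.log 2 #(A + A) : ℝ) + 2) * (#(A * A) : ℝ) := by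
        exact_mod_cast key
      have h2j : (0 : ℝ) < 2 ^ j := by positivity
      nlinarith
    -- bound of the sum
    have hsum : ∑ p ∈ P j, (rr A p.1 p.2 : ℝ) ≤ (#Λ : ℝ) * (2 ^ (j + 1)) ^ 2 := by
      rw [← Finset.sum_fiberwise_of_maps_to (t := Λ) (g := fun p : ℕ × ℕ => (p.1 : ℝ) / p.2)
        (fun p hp => Finset.mem_image_of_mem _ hp)]
      rw [← nsmul_eq_mul]
      refine Finset.sum_le_card_nsmul _ _ _ ?_
      intro t ht
      rw [hΛ, Finset.mem_image] at ht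
      obtain ⟨p, hp, rfl⟩ := ht
      obtain ⟨h1, h2, h3, h4, _⟩ := hmemP p hp
      have hcard : #((P j).filter (fun q : ℕ × ℕ => (q.1 : ℝ) / q.2 = (p.1 : ℝ) / p.2)) ≤ 2 ^ (j + 1) := by
        refine le_trans (Finset.card_le_card ?_) ((rr_fiber A hpos p.1 p.2 (hpos _ h2)).trans h4.le)
        intro q hq
        simp only [Finset.mem_filter] at hq ⊢
        refine ⟨?_, hq.2⟩
        have := hq.1
        simp only [hP, Finset.mem_filter] at this
        exact this.1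
      calc ∑ q ∈ (P j).filter (fun q : ℕ × ℕ => (q.1 : ℝ) / q.2 = (p.1 : ℝ) / p.2), (rr A q.1 q.2 : ℝ)
          ≤ ∑ q ∈ (P j).filter (fun q : ℕ × ℕ => (q.1 : ℝ) / q.2 = (p.1 : ℝ) / p.2), (2 : ℝ) ^ (j + 1) := by
            refine Finset.sum_le_sum fun q hq => ?_
            have := (hmemP q (Finset.mem_filter.1 hq).1).2.2.2.1
            exact_mod_cast this.le
        _ = (#((P j).filter (fun q : ℕ × ℕ => (q.1 : ℝ) / q.2 = (p.1 : ℝ) / p.2)) : ℝ) * 2 ^ (j + 1) := by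
            rw [Finset.sum_const, nsmul_eq_mul]
        _ ≤ (2 : ℝ) ^ (j + 1) * 2 ^ (j + 1) := by
            refine mul_le_mul_of_nonneg_right ?_ (by positivity)
            exact_mod_cast hcard
        _ = (2 ^ (j + 1)) ^ 2 := by ring
    have hsmall' : (M : ℝ) * (#Λ : ℝ) * (2 ^ j) ^ 2 ≤ 16 * (#(A + A) : ℝ) ^ 2 := by
      exact_mod_cast hsmall.le
    calc (M : ℝ) * ∑ p ∈ P j, (rr A p.1 p.2 : ℝ) ≤ M * ((#Λ : ℝ) * (2 ^ (j + 1)) ^ 2) :=
          mul_le_mul_of_nonneg_left hsum hM0.le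
      _ = 4 * ((M : ℝ) * (#Λ : ℝ) * (2 ^ j) ^ 2) := by rw [pow_succ]; ring
      _ ≤ 64 * (#(A + A) : ℝ) ^ 2 := by linarith
  -- decomposition
  have hEb : Eb A ρ = ∑ j ∈ Finset.range (Nat.log 2 #A + 1), ∑ p ∈ P j, (rr A p.1 p.2 : ℝ) := by
    unfold Eb
    rw [← Finset.sum_product', ← Finset.sum_filter,
      ← Finset.sum_fiberwise_of_maps_to (t := Finset.range (Nat.log 2 #A + 1))
        (g := fun p : ℕ × ℕ => Nat.log 2 (rr A p.1 p.2))]
    · refine Finset.sum_congr rfl fun j _ => ?_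
      refine Finset.sum_congr ?_ fun _ _ => rfl
      ext p
      simp only [hP, Finset.mem_filter]
      tauto
    · intro p hp
      simp only [Finset.mem_filter, Finset.mem_product] at hp
      rw [Finset.mem_range, Nat.lt_succ_iff]
      exact Nat.log_mono_right (rr_le_card A p.1 p.2 (hpos _ hp.1.2))
  rw [hEb, Finset.mul_sum]
  calc ∑ j ∈ Finset.range (Nat.log 2 #A + 1), (M : ℝ) * ∑ p ∈ P j, (rr A p.1 p.2 : ℝ)
      ≤ ∑ j ∈ Finset.range (Nat.log 2 #A + 1), 64 * (#(A + A) : ℝ) ^ 2 :=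
        Finset.sum_le_sum fun j _ => hpiece j
    _ = 64 * ((Nat.log 2 #A : ℝ) + 1) * (#(A + A) : ℝ) ^ 2 := by
        rw [Finset.sum_const, Finset.card_range, nsmul_eq_mul]
        push_cast
        ring

end Pool.Agent.Helper21.SR
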