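import Mathlib
import Pool.Agent.Helper21.SR.St

namespace Pool.Agent.Helper21.SR

open Finset

theorem fr_eq_sum (A : Finset ℕ) (z : ℕ) :
    (fr A z : ℝ) = ∑ y ∈ A, ∑ t ∈ A, if y * t = z then (1 : ℝ) else 0 := by
  unfold fr
  rw [Finset.card_filter, Finset.sum_product]
  push_cast
  rfl

theorem hWk2' : StWk2 := by
  classical
  intro A f ρ hA hf hρ x y
  have hn : (0 : ℝ) < #A := by exact_mod_cast hA.card_pos
  by_cases hr : (rr A x y : ℝ) ≤ ρ
  · have h1 : wg A f ρ x y ≤ (1 / (#A : ℝ)) * ∑ s ∈ A, ∑ t ∈ A, if x * s = y * t then 1 / f else 0 := by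
      unfold wg
      refine mul_le_mul_of_nonneg_left ?_ (by positivity)
      refine Finset.sum_le_sum fun s _ => Finset.sum_le_sum fun t _ => ?_
      by_cases h : x * s = y * t ∧ f ≤ (fr A (x * s) : ℝ) ∧ (rr A x y : ℝ) ≤ ρ
      · rw [if_pos h, if_pos h.1]
        exact one_div_le_one_div_of_le hf h.2.1
      · rw [if_neg h]
        split_ifs
        · positivity
        · exact le_rfl
    have h2 : (∑ s ∈ A, ∑ t ∈ A, if x * s = y * t then 1 / f else 0) = (rr A x y : ℝ) / f := by
      unfold rr
      rw [Finset.card_filter, Finset.sum_product, Finset.sum_comm]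
      push_cast
      rw [Finset.sum_div]
      refine Finset.sum_congr rfl fun s _ => ?_
      rw [Finset.sum_div]
      refine Finset.sum_congr rfl fun t _ => ?_
      have : (x * t = y * s) ↔ (s * y = t * x) := by
        constructor
        · intro h; rw [mul_comm s y, mul_comm t x]; exact h.symm
        · intro h; rw [mul_comm x t, mul_comm y s]; exact h.symm
      by_cases h : x * t = y * s
      · rw [if_pos h, if_pos (this.1 h)]
      · rw [if_neg h, if_neg (fun h' => h (this.2 h'))]
        simp
    rw [h2] at h1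
    refine h1.trans ?_
    rw [one_div_mul_eq_div, div_div, mul_comm f]
    exact div_le_div_of_nonneg_right hr (by positivity)
  · have : wg A f ρ x y = 0 := by
      unfold wg
      have : ∀ s ∈ A, ∑ t ∈ A, (if x * s = y * t ∧ f ≤ (fr A (x * s) : ℝ) ∧ (rr A x y : ℝ) ≤ ρ
          then 1 / (fr A (x * s) : ℝ) else 0) = 0 := by
        intro s _
        refine Finset.sum_eq_zero fun t _ => ?_
        rw [if_neg]
        rintro ⟨_, _, h⟩
        exact hr h
      rw [Finset.sum_eq_zero this, mul_zero]
    rw [this]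
    positivity

theorem hWk1' : StWk1 := by
  classical
  intro A f ρ hpos hA
  have hn : (0 : ℝ) < #A := by exact_mod_cast hA.card_pos
  refine ⟨fun x y => ⟨?_, ?_⟩, ?_, ?_⟩
  · unfold wg
    refine mul_nonneg (by positivity) (Finset.sum_nonneg fun s _ => Finset.sum_nonneg fun t _ => ?_)
    split_ifs <;> positivity
  · unfold wg wk
    refine mul_le_mul_of_nonneg_left ?_ (by positivity)
    refine Finset.sum_le_sum fun s _ => Finset.sum_le_sum fun t _ => ?_
    by_cases h : x * s = y * t ∧ f ≤ (fr A (x * s) : ℝ) ∧ (rr A x y : ℝ) ≤ ρ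
    · rw [if_pos h, if_pos h.1]
    · rw [if_neg h]
      split_ifs <;> positivity
  · intro x hx
    unfold wk
    rw [← Finset.mul_sum, Finset.sum_comm]
    have : ∀ s ∈ A, ∑ y ∈ A, ∑ t ∈ A, (if x * s = y * t then 1 / (fr A (x * s) : ℝ) else 0) = 1 := by
      intro s hs
      have hf : (fr A (x * s) : ℝ) = ∑ y ∈ A, ∑ t ∈ A, if y * t = x * s then (1 : ℝ) else 0 :=
        fr_eq_sum A (x * s)
      have hfpos : (0 : ℝ) < fr A (x * s) := by
        unfold fr
        have : (x, s) ∈ (A ×ˢ A).filter (fun p => p.1 * p.2 = x * s) := by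
          simp [hx, hs]
        exact_mod_cast Finset.card_pos.2 ⟨_, this⟩
      have e : ∀ y ∈ A, ∑ t ∈ A, (if x * s = y * t then 1 / (fr A (x * s) : ℝ) else 0) =
          (∑ t ∈ A, if y * t = x * s then (1 : ℝ) else 0) / (fr A (x * s) : ℝ) := by
        intro y _
        rw [Finset.sum_div]
        refine Finset.sum_congr rfl fun t _ => ?_
        by_cases h : x * s = y * t
        · rw [if_pos h, if_pos h.symm]
        · rw [if_neg h, if_neg (fun h' => h h'.symm)]
          simp
      rw [Finset.sum_congr rfl e, ← Finset.sum_div, ← hf]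
      exact div_self hfpos.ne'
    rw [Finset.sum_congr rfl this]
    simp
    field_simp
  · intro x y
    unfold wk
    rw [Finset.sum_comm]
    congr 1
    refine Finset.sum_congr rfl fun s _ => Finset.sum_congr rfl fun t _ => ?_
    by_cases h : x * t = y * s
    · rw [if_pos h, if_pos h.symm, h]
    · rw [if_neg h, if_neg (fun h' => h h'.symm)]

end Pool.Agent.Helper21.SR
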