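import Mathlib
import Pool.Agent.Helper21.SR.St
import Pool.Agent.Helper62.SR.M_EN0
import Pool.Agent.Helper67.SR.M_BLK
import Pool.Agent.Helper4.SR.M_PAIR
import Pool.Agent.Helper32.SR.M_ELIM
import Pool.Agent.Helper69.SR.M_KS
import Pool.Agent.Helper21.SR.M_EBD
import Pool.Agent.Helper21.SR.M_WK
import Pool.Agent.Helper39.SR.M_WK3
import Pool.Agent.Helper87.SR.M_REG
import Pool.Agent.Helper8.SR.M_REF
import Pool.Agent.Helper67.SR.M_CNT
import Pool.Agent.Helper54.SR.M_JJ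
import Pool.Agent.Helper54.SR.M_FOU
import Pool.Agent.Helper71.SR.M_TEL
import Pool.Agent.Helper54.SR.M_TT1
import Pool.Agent.Helper87.SR.M_TT2
import Pool.Agent.Helper87.SR.M_TT3
import Pool.Agent.Helper38.SR.M_TTX
import Pool.Agent.Helper34.SR.M_UNI
import Pool.Agent.Helper47.SR.M_MAIN
import Pool.Agent.Helper12.SR.M_ASY
import Pool.Agent.Helper22.SR.M_FIN

namespace Pool.Agent.Helper21.SR

theorem hEn' : StEn := Pool.Agent.Helper62.SR.hEn0
theorem hElim' : StElim := Pool.Agent.Helper32.SR.hElim hEn'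
theorem hKS' : StKS :=
  Pool.Agent.Helper69.SR.hKS hEn' Pool.Agent.Helper67.SR.hBlk Pool.Agent.Helper4.SR.hPair hElim'
theorem hEbd' : StEbd := hEbd hKS'
theorem hCnt' : StCnt := Pool.Agent.Helper67.SR.hCnt Pool.Agent.Helper8.SR.hRef

theorem hUni' (hNum : StNum) : StUni :=
  Pool.Agent.Helper34.SR.hUni hWk1' Pool.Agent.Helper54.SR.hJJ Pool.Agent.Helper54.SR.hFou
    Pool.Agent.Helper71.SR.hTel Pool.Agent.Helper54.SR.hTT1 Pool.Agent.Helper87.SR.hTT2
    Pool.Agent.Helper87.SR.hTT3 Pool.Agent.Helper38.SR.hTTX hNum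

theorem hMain' (hNum : StNum) : StMain :=
  Pool.Agent.Helper47.SR.hMain hCnt' (hUni' hNum) hWk1'
    hWk2' Pool.Agent.Helper39.SR.hWk3

theorem hFin' (hNum : StNum) : StFin :=
  Pool.Agent.Helper22.SR.hFin hEbd' Pool.Agent.Helper87.SR.hReg (hMain' hNum)
    Pool.Agent.Helper12.SR.hAsy

end Pool.Agent.Helper21.SR
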