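import Mathlib
import Pool.Agent.Helper21.SR.All
import Pool.Agent.Helper61.SR.M_NUM

namespace Pool.Agent.Helper21.SR

open scoped Pointwise

theorem final : ∃ c : ℝ, 0 < c ∧ ∀ A : Finset ℤ,
    c * (A.card : ℝ) ^ ((4 : ℝ) / 3 + 1 / 290) ≤ max ((A + A).card : ℝ) ((A * A).card : ℝ) :=
  hFin' Pool.Agent.Helper61.SR.hNUM

end Pool.Agent.Helper21.SR
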